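import Pool.Agent.W58.GU.Stm

/-! Project GU of helper58: every block subspace contains a rapidly increasing sequence. -/

set_option autoImplicit false

namespace Pool.Agent.W748.GU
open Finset Filter Topology
open Pool.Agent.W58.GU

lemma lc_support (v : ℕ → (ℕ →₀ ℝ)) (c : ℕ →₀ ℝ) {x : ℕ}
    (hx : x ∈ (∑ a ∈ c.support, c a • v a : ℕ →₀ ℝ).support) :
    ∃ a ∈ c.support, x ∈ (v a).support := by
  rw [Finsupp.mem_support_iff, Finsupp.finsetSum_apply] at hx
  obtain ⟨a, ha, hne⟩ := Finset.exists_ne_zero_of_sum_ne_zero hx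
  refine ⟨a, ha, ?_⟩
  rw [Finsupp.mem_support_iff]
  intro h0
  apply hne
  rw [Finsupp.smul_apply, h0, smul_zero]

lemma lc_lt {v : ℕ → (ℕ →₀ ℝ)} (hv : ∀ k l, k < l → Lt (v k).support (v l).support) {c c' : ℕ →₀ ℝ}
    (h : Lt c.support c'.support) :
    Lt (∑ a ∈ c.support, c a • v a : ℕ →₀ ℝ).support (∑ a ∈ c'.support, c' a • v a : ℕ →₀ ℝ).support := by
  intro x hx y hy
  obtain ⟨a, ha, hxa⟩ := lc_support v c hx
  obtain ⟨b, hb, hyb⟩ := lc_support v c' hy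
  exact hv a b (h a ha b hb) x hxa y hyb

/-- one vector -/
lemma step (h6 : S_L6) (h7 : S_L7) (P : Par) (v : ℕ → (ℕ →₀ ℝ))
    (hv : ∀ k l, k < l → Lt (v k).support (v l).support) (hn : ∀ k, nz P (v k) = 1) (j0 N0 : ℕ) :
    ∃ q : (ℕ →₀ ℝ) × (ℕ →₀ ℝ), nz P q.1 = 1 ∧ q.1 = ∑ a ∈ q.2.support, q.2 a • v a ∧
      (∀ a ∈ q.2.support, N0 ≤ a) ∧
      ∀ i < j0, ∀ f, KW P (some i) f → |pr f q.1| ≤ 4 / P.m i := by
  set r : ℕ := (range j0).sup (fun i => P.m i * P.n i) + 1 with hr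
  have hr1 : 1 ≤ r := by omega
  have hri : ∀ i < j0, P.m i * P.n i ≤ r := by
    intro i hi
    have : P.m i * P.n i ≤ (range j0).sup (fun i => P.m i * P.n i) :=
      Finset.le_sup (f := fun i => P.m i * P.n i) (Finset.mem_range.2 hi)
    omega
  obtain ⟨w, c, hw, hcN, hcs, hwb, hwn⟩ := h6 P v hv hn r N0 hr1
  have hLC : ∀ g : ℕ →₀ ℝ, (∑ a ∈ g.support, g a • v a : ℕ →₀ ℝ) = Finsupp.linearCombination ℝ v g := by
    intro g
    rw [Finsupp.linearCombination_apply]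
    rfl
  refine ⟨(((1 : ℝ) / r) • ∑ l ∈ range r, w l, ((1 : ℝ) / r) • ∑ l ∈ range r, c l), hwn, ?_, ?_, ?_⟩
  · show ((1 : ℝ) / r) • ∑ l ∈ range r, w l = ∑ a ∈ (((1 : ℝ) / r) • ∑ l ∈ range r, c l : ℕ →₀ ℝ).support,
      (((1 : ℝ) / r) • ∑ l ∈ range r, c l : ℕ →₀ ℝ) a • v a
    rw [hLC, map_smul, map_sum]
    congr 1
    refine Finset.sum_congr rfl fun l hl => ?_
    rw [hw l (Finset.mem_range.1 hl), hLC]
  · intro a ha
    have h1 : a ∈ (∑ l ∈ range r, c l : ℕ →₀ ℝ).support := Finsupp.support_smul ha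
    rw [Finsupp.mem_support_iff, Finsupp.finsetSum_apply] at h1
    obtain ⟨l, hl, hne⟩ := Finset.exists_ne_zero_of_sum_ne_zero h1
    exact hcN l (Finset.mem_range.1 hl) a (Finsupp.mem_support_iff.2 hne)
  · intro i hi f hf
    have h1 := h7 P 2 w r (by norm_num) (fun k l hkl hl => by
      rw [hw k (hkl.trans hl), hw l hl]
      exact lc_lt hv (hcs k l hkl hl)) hwb i (hri i hi) f hf
    refine h1.trans (le_of_eq (by norm_num))

theorem blk (h6 : S_L6) (h7 : S_L7) : S_BLK := by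
  intro P v hv hn
  choose F hF1 hF2 hF3 hF4 using step h6 h7 P v hv hn
  -- the l1 norm
  let L : (ℕ →₀ ℝ) → ℝ := fun y => ∑ a ∈ y.support, |y a|
  let st : ℕ → ℕ × ℕ := fun k => Nat.rec (0, 0) (fun k s =>
    (max (s.1 + 1) ⌈((k : ℝ) + 1) * L (F s.1 s.2).1⌉₊, max s.2 ((F s.1 s.2).2.support.sup id + 1))) k
  have hst : ∀ k, st (k + 1) = (max ((st k).1 + 1) ⌈((k : ℝ) + 1) * L (F (st k).1 (st k).2).1⌉₊,
      max (st k).2 ((F (st k).1 (st k).2).2.support.sup id + 1)) := fun k => rfl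
  have hj : StrictMono (fun k => (st k).1) := by
    refine strictMono_nat_of_lt_succ fun k => ?_
    show (st k).1 < (st (k + 1)).1
    rw [hst k]
    exact lt_of_lt_of_le (Nat.lt_succ_self _) (le_max_left _ _)
  have hN : Monotone (fun k => (st k).2) := by
    refine monotone_nat_of_le_succ fun k => ?_
    show (st k).2 ≤ (st (k + 1)).2
    rw [hst k]
    exact le_max_left _ _
  have hc1 : ∀ k, ∀ a ∈ (F (st k).1 (st k).2).2.support, (st k).2 ≤ a := fun k => hF3 _ _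
  have hc2 : ∀ k, ∀ a ∈ (F (st k).1 (st k).2).2.support, a < (st (k + 1)).2 := by
    intro k a ha
    rw [hst k]
    have h1 : a ≤ (F (st k).1 (st k).2).2.support.sup id := Finset.le_sup (f := id) ha
    exact lt_of_lt_of_le (Nat.lt_succ_of_le h1) (le_max_right _ _)
  refine ⟨fun k => (F (st k).1 (st k).2).1, fun k => (F (st k).1 (st k).2).2, fun k => (st k).1, ?_,
    fun k => hF1 _ _, fun k => hF2 _ _⟩
  refine ⟨?_, hj, ?_, ?_, ?_⟩
  · intro k l hkl
    show Lt (F (st k).1 (st k).2).1.support (F (st l).1 (st l).2).1.support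
    rw [hF2 (st k).1 (st k).2, hF2 (st l).1 (st l).2]
    refine lc_lt hv fun a ha b hb => ?_
    have h1 := hc2 k a ha
    have h2 := hc1 l b hb
    have h3 : (st (k + 1)).2 ≤ (st l).2 := hN hkl
    omega
  · intro k
    rw [Bd_iff, hF1]
    norm_num
  · intro k i hi f hf
    exact hF4 _ _ i hi f hf
  · intro k
    show ((k : ℝ) + 1) * L (F (st k).1 (st k).2).1 ≤ P.m (st (k + 1)).1
    have h1 : ((k : ℝ) + 1) * L (F (st k).1 (st k).2).1 ≤ ((st (k + 1)).1 : ℝ) := by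
      rw [hst k]
      exact (Nat.le_ceil _).trans (by exact_mod_cast le_max_right _ _)
    have h2 : (st (k + 1)).1 ≤ P.m (st (k + 1)).1 := by
      have := P.hm1 (st (k + 1)).1
      omega
    exact h1.trans (by exact_mod_cast h2)

end Pool.Agent.W748.GU
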